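import Pool.Agent.Helper83.DB.Class

/-!
# Finiteness of the polarized integral systems with Jordan blocks of pairwise different sizes

`F` is a number field, `S` and `S'` are finite sets of primes, `w ≥ 0` is the weight and `n ≥ 1` the
rank, `Λ` a set of primes. The integral systems `(T_ℓ)_ℓ` over `F` of the theorem have the properties in
the problem of the realisations of a pure motive of weight `w` over `F` with a lattice: pure good
reduction outside `S`, semistable reduction in `S`. In addition they have a polarization
`T_ℓ × T_ℓ → ℤ_ℓ(-w)` which is perfect for `ℓ` outside `S'`. There is no condition on the Hodge numbers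
or on the Frobenius elements. The condition is on the monodromy: for every `ℓ` in `Λ` there is a prime
`p ≠ ℓ` in `S` such that at all the places above `p` a generator of the tame inertia group acts on
`V_ℓ` (and on `T_ℓ / ℓ` if `ℓ` is outside `S'`) by a unipotent matrix with Jordan blocks of pairwise
different sizes. The weight-monodromy property is not assumed.

Then up to isomorphism of the `T_ℓ`, `ℓ` in `Λ`, there are only finitely many such systems.

If the sizes of the Jordan blocks of `N` are pairwise different then the steps of the filtration of
`ker N` by the subspaces `ker N ∩ im N ^ b` are of dimension at most one, and by the polarization the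
Frobenius eigenvalue `c` on the step `b` satisfies `c ^ 2 = q ^ (w - b)`. For a stable subspace `U` let
`k_b` be the number of `i` such that the step `b` meets `N ^ i (U ∩ ker N ^ (i + 1))`. Then
`det (Φ|U) ^ 2 = q ^ (w dim U - ∑ k_b (b + 1 - k_b))`, so the weight of `det U` at the place is at most
the mean; by Minkowski's theorem applied to the transfer of `det U` there must be equality at all the
places above `p`, so `k_b = 0` or `k_b = b + 1` for all `b`. But in the second case `U` contains a
vector `u` with `⟨u, N ^ b u⟩ ≠ 0` and is not isotropic. So the polarization splits `V_ℓ` and `T_ℓ / ℓ`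
into orthogonal sums of irreducible representations.
-/

set_option autoImplicit false

namespace Pool.Agent.Results.MP_78e9a5_nt.DistinctBlocks

open Pool.Agent.Helper83.SM Pool.Agent.Helper83.DB Pool.Agent.R390.SF
open Pool.Agent.R390.SF.IntegralSystem NumberField

theorem result (F : SubFld ℚ) [FiniteDimensional ℚ F] (n : ℕ) (hn : 0 < n) (w : ℕ)
    (S S' : Finset ℕ) (Λ : Set ℕ) :
    ∃ (m : ℕ) (T : Fin m → IntegralSystem F n), (∀ i, DistinctBlocks S S' w Λ (T i)) ∧
      ∀ T' : IntegralSystem F n, DistinctBlocks S S' w Λ T' → ∃ i, IsomorphicOn Λ (T i) T' :=
  Pool.Agent.Helper83.DB.finiteness hn w S S' Λ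

end Pool.Agent.Results.MP_78e9a5_nt.DistinctBlocks
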