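import Pool.Agent.Helper83.SM.Crit

/-!
# Finiteness of the polarized integral systems with generic Frobenius elements

`F` is a number field, `S` and `S'` are finite sets of primes, `w ≥ 0` is the weight and `n ≥ 1` the
rank. The integral systems `(T_ℓ)_ℓ` over `F` of the theorem have the properties in the problem of the
realisations of a pure motive of weight `w` over `F` with a lattice: pure good reduction outside `S`,
semistable reduction in `S` (`GoodSystem`, `SemistableAt`, and weights at `ℓ`). In addition they have a
polarization `T_ℓ × T_ℓ → ℤ_ℓ(-w)` which is perfect for `ℓ` outside `S'`. There is no condition on the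
Hodge numbers or on the monodromy in `S`, and the representations may be reducible, also modulo `ℓ`.
The condition is on the Frobenius eigenvalues at a few good places:

* `F = ℚ`, the rank is at most `5`, or at most `7` if `w` is odd, and *one* Frobenius polynomial has no
  repeated root; or
* in general, for every `ℓ` in `Λ` and every `d` with `0 < d ≤ n / 2` there is a prime `p ≠ ℓ` outside
  `S` such that no family of isotropic sets of `d` Frobenius eigenvalues, one for each place above `p`,
  is balanced, i.e. has the product `p ^ (w [F : ℚ] d / 2)` (in the sense of the definition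
  `Balanced`).

Then up to isomorphism of the `T_ℓ`, `ℓ` in `Λ`, there are only finitely many such systems.

An isotropic stable subspace of `V_ℓ` has, by Minkowski's theorem applied to the transfer of its
determinant and by the purity, a determinant of total weight `w [F : ℚ] d / 2`, and this gives a
multiplicative relation between its Frobenius eigenvalues at the places above `p`. The same
relation, modulo `ℓ`, is a relation between algebraic integers if `ℓ` is large. So the polarization
splits `V_ℓ` and `T_ℓ / ℓ` into orthogonal sums of irreducible representations. If `F = ℚ` and the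
rank is small, then a relation gives a repeated eigenvalue. By Chebotarev's theorem one separable
Frobenius polynomial gives infinitely many.
-/

set_option autoImplicit false

namespace Pool.Agent.Results.MP_78e9a5_nt.GenericFrobenius

open Pool.Agent.Helper83.SM Pool.Agent.R390.SF Pool.Agent.R390.SF.IntegralSystem NumberField

/-- The class of the systems of the theorem. -/
structure InClass {F : SubFld ℚ} {n : ℕ} (S S' : Finset ℕ) (w : ℕ) (Λ : Set ℕ)
    (T : IntegralSystem F n) : Prop extends Polarized S S' w T where
  /-- generic Frobenius elements -/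
  frobenius :
    (Module.finrank ℚ F = 1 ∧ (n ≤ 5 ∨ (Odd w ∧ n ≤ 7)) ∧
      ∃ p : ℕ, p.Prime ∧ p ∉ S ∧ ∀ 𝔭 : Ideal (𝓞 F), 𝔭.IsMaximal → (p : 𝓞 F) ∈ 𝔭 →
        ((T.poly 𝔭).aroots ℂ).Nodup) ∨
    ∀ ℓ : ℕ, ℓ.Prime → ℓ ∈ Λ → ∀ d : ℕ, 0 < d → 2 * d ≤ n →
      ∃ p : ℕ, p.Prime ∧ p ∉ S ∧ p ≠ ℓ ∧ NoIsotropicRelation T w p d

theorem generic_of_inClass {F : SubFld ℚ} [FiniteDimensional ℚ F] {n : ℕ} {S S' : Finset ℕ} {w : ℕ}
    {Λ : Set ℕ} {T : IntegralSystem F n} (hT : InClass S S' w Λ T) : Generic S S' w Λ T where
  toPolarized := hT.toPolarized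
  generic ℓ hℓ hΛ d hd hdn := by
    rcases hT.frobenius with ⟨h1F, hsm, p, hp, hpS, hnd⟩ | h
    · obtain ⟨p', hp', hpS', hne, hnd'⟩ := exists_nodup_one h1F hT.toGoodSystem hp hpS hnd ℓ
      exact ⟨p', hp', hpS', hne, noIso_of_nodup h1F hp' hsm hnd' hd hdn⟩
    · exact h ℓ hℓ hΛ d hd hdn

theorem result (F : SubFld ℚ) [FiniteDimensional ℚ F] (n : ℕ) (hn : 0 < n) (w : ℕ)
    (S S' : Finset ℕ) (Λ : Set ℕ) :
    ∃ (m : ℕ) (T : Fin m → IntegralSystem F n), (∀ i, InClass S S' w Λ (T i)) ∧
      ∀ T' : IntegralSystem F n, InClass S S' w Λ T' → ∃ i, IsomorphicOn Λ (T i) T' := by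
  obtain ⟨m, T, hT, h⟩ := gen_finiteness (F := F) hn w S S' Λ
  exact ⟨m, T, fun i => ⟨(hT i).toPolarized, Or.inr (hT i).generic⟩,
    fun T' hT' => h T' (generic_of_inClass hT')⟩

end Pool.Agent.Results.MP_78e9a5_nt.GenericFrobenius
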