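import Pool.Agent.R390.SF.Main
import Pool.Agent.Hx88.WM.Irr

/-!
# Finiteness of pure integral systems with incompatible Jordan types of the monodromy

`F` is a number field, `n ≥ 1`, `w ≥ 0`, `S` and `S'` are finite sets of primes, `Λ` a set of primes.
There are only finitely many integral systems `(T_ℓ)_ℓ` of rank `n` over `F`, up to isomorphism of the
`T_ℓ` for all `ℓ` in `Λ`, which are pure of weight `w`, with good reduction outside `S` and semistable
reduction in `S`, which have the weight-monodromy property at the places of `F` above the primes in `S'`,
and for which the Jordan types of the monodromy at these places are incompatible: for each `ℓ` in `Λ`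
and each `d` with `0 < d < n` such that `w [F : ℚ] d` is even there is a place above a prime `p ≠ ℓ` in
`S'` for which `d` is not the sum of the sizes of some of the Jordan blocks. No polarization and no
condition on Frobenius elements at the places of good reduction. For each such system there are only
finitely many Galois stable lattices in the adelic realisation up to multiplication by rational numbers
(on `Λ`).

One Jordan block at one place is the case of maximal degeneration (`DegenerateOverNumberFields` of this
folder). Other examples of incompatible types are `(3, 1)` at one place and `(2, 2)` at another one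
(`n = 4`), `(4, 1)` at one place and `(3, 2)` at another one (`n = 5`), `(4, 4)` and `(6, 2)`
(`n = 8`); and if `w [F : ℚ]` is odd, the type `(a, b)` with `a` and `b` odd at a single place.

The proof: for the determinant of a stable subspace `U` of `V_ℓ` (or of `T_ℓ / ℓ`) only the total
weight over all the places of `F` above a prime number `p` can be controlled (by the theorem of
Minkowski applied to its transfer to the absolute Galois group of `ℚ`). For each place the weight of
`det U` is at most `w dim U / 2` by the property of the monodromy filtration, with equality only if the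
dimensions of the graded pieces of `U` are symmetric. So there is equality at all the places, and then
the monodromy of `U` has at most as many Jordan blocks of each size as that of `V_ℓ`; so `dim U` is the
sum of the sizes of some of the Jordan blocks, at each of the places. Hence `V_ℓ` and almost all
`T_ℓ / ℓ` are irreducible.
-/

set_option autoImplicit false

namespace Pool.Agent.Results.MP_78e9a5_nt.IncompatibleJordanTypes

open Pool.Agent.R390.SF Pool.Agent.R390.SF.IntegralSystem NumberField

/-- The class of the systems of the theorem. -/
def InClass {F : SubFld ℚ} {n : ℕ} (S S' : Finset ℕ) (w : ℕ) (Λ : Set ℕ) (T : IntegralSystem F n) :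
    Prop :=
  T.PureSystem S w ∧ Hx88.WM.IntegralSystem.Incompatible T S' Λ w

theorem result (F : SubFld ℚ) [FiniteDimensional ℚ F] (n w : ℕ) (hn : 0 < n) (S S' : Finset ℕ)
    (Λ : Set ℕ) :
    (∃ (m : ℕ) (T : Fin m → IntegralSystem F n), (∀ i, InClass S S' w Λ (T i)) ∧
      ∀ T' : IntegralSystem F n, InClass S S' w Λ T' → ∃ i, IsomorphicOn Λ (T i) T') ∧
    ∀ T : IntegralSystem F n, InClass S S' w Λ T →
      ∃ (m : ℕ) (L : Fin m → ∀ (ℓ : ℕ) [Fact ℓ.Prime], Submodule ℤ_[ℓ] (Fin n → ℚ_[ℓ])),
        (∀ i, T.IsLattice (L i)) ∧
          ∀ L' : (∀ (ℓ : ℕ) [Fact ℓ.Prime], Submodule ℤ_[ℓ] (Fin n → ℚ_[ℓ])), T.IsLattice L' →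
            ∃ i, ProportionalOn Λ (L i) L' :=
  ⟨finiteness hn w S Λ (InClass S S' w Λ) (fun _ hT => hT.1.toGoodSystem)
    (fun _ hT => Hx88.WM.irr_incomp hT.1 hT.2), fun _ hT => lattices hn
      (Hx88.WM.irr_incomp hT.1 hT.2)⟩

end Pool.Agent.Results.MP_78e9a5_nt.IncompatibleJordanTypes
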