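import Pool.Agent.Helper83.SM.Crit2
import Pool.Agent.R390.SF.Main

/-!
# Finiteness of the pure integral systems without relations between the Frobenius eigenvalues

`F` is a number field, `S` is a finite set of primes, `w ≥ 0` is the weight and `n ≥ 1` the rank. The
integral systems `(T_ℓ)_ℓ` over `F` of the theorem have the properties in the problem of the realisations
of a pure motive of weight `w` over `F` with an arbitrary lattice: pure good reduction outside `S`,
semistable reduction in `S` (`PureSystem`). There is no polarization, no condition on the Hodge numbers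
and no condition on the monodromy in `S`. The condition is on the Frobenius eigenvalues at a few good
places:

* `F = ℚ`, the rank is at most `3` and, if `w` is even, the number `p ^ (w / 2)` is not an eigenvalue at
  *one* prime `p` outside `S`; or
* in general, for every `ℓ` in `Λ` and every `d` with `0 < d ≤ n / 2` there is a prime `p ≠ ℓ` outside
  `S` such that no family of sets of `d` Frobenius eigenvalues, one for each place above `p`, is
  balanced, i.e. has the product `p ^ (w [F : ℚ] d / 2)` (in the sense of the definition `Balanced`).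

Then up to isomorphism of the `T_ℓ`, `ℓ` in `Λ`, there are only finitely many such systems, and for each
of them there are only finitely many Galois stable lattices in the adelic realisation up to
multiplication by rational numbers (on `Λ`).

The determinant of a stable subspace is a character of the absolute Galois group of `F`; by Minkowski's
theorem, applied to its transfer to the absolute Galois group of `ℚ`, and by the purity, its total
weight is `w [F : ℚ] d / 2`, and this gives a multiplicative relation between its Frobenius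
eigenvalues. The same relation modulo `ℓ` is a relation between algebraic integers if `ℓ` is large. So
the representations `V_ℓ`, and `T_ℓ / ℓ` for almost all `ℓ`, are irreducible.
-/

set_option autoImplicit false

namespace Pool.Agent.Results.MP_78e9a5_nt.UnpolarizedGeneric

open Pool.Agent.Helper83.SM Pool.Agent.R390.SF Pool.Agent.R390.SF.IntegralSystem NumberField

/-- The class of the systems of the theorem. -/
structure InClass {F : SubFld ℚ} {n : ℕ} (S : Finset ℕ) (w : ℕ) (Λ : Set ℕ)
    (T : IntegralSystem F n) : Prop extends T.PureSystem S w where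
  /-- no relations -/
  frobenius :
    (Module.finrank ℚ F = 1 ∧ n ≤ 3 ∧
      ∃ p : ℕ, p.Prime ∧ p ∉ S ∧ ∀ 𝔭 : Ideal (𝓞 F), 𝔭.IsMaximal → (p : 𝓞 F) ∈ 𝔭 →
        ∀ b : ℕ, 2 * b = w → (T.poly 𝔭).eval ((p : ℤ) ^ b) ≠ 0) ∨
    ∀ ℓ : ℕ, ℓ.Prime → ℓ ∈ Λ → ∀ d : ℕ, 0 < d → 2 * d ≤ n →
      ∃ p : ℕ, p.Prime ∧ p ∉ S ∧ p ≠ ℓ ∧ NoRelation T w p d

theorem unrelated_of_inClass {F : SubFld ℚ} [FiniteDimensional ℚ F] {n : ℕ} {S : Finset ℕ} {w : ℕ}
    {Λ : Set ℕ} {T : IntegralSystem F n} (hT : InClass S w Λ T) : Unrelated S w Λ T where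
  toPureSystem := hT.toPureSystem
  generic ℓ hℓ hΛ d hd hdn := by
    rcases hT.frobenius with ⟨h1F, hn3, p, hp, hpS, hne⟩ | h
    · obtain ⟨p', hp', hpS', hne', h'⟩ := exists_eval_one h1F hT.toGoodSystem hp hpS hne ℓ
      obtain rfl : d = 1 := by omega
      exact ⟨p', hp', hpS', hne', noRel_of_eval h1F hp' h'⟩
    · exact h ℓ hℓ hΛ d hd hdn

theorem result (F : SubFld ℚ) [FiniteDimensional ℚ F] (n : ℕ) (hn : 0 < n) (w : ℕ)
    (S : Finset ℕ) (Λ : Set ℕ) :
    (∃ (m : ℕ) (T : Fin m → IntegralSystem F n), (∀ i, InClass S w Λ (T i)) ∧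
      ∀ T' : IntegralSystem F n, InClass S w Λ T' → ∃ i, IsomorphicOn Λ (T i) T') ∧
    ∀ T : IntegralSystem F n, InClass S w Λ T →
      ∃ (m : ℕ) (L : Fin m → ∀ (ℓ : ℕ) [Fact ℓ.Prime], Submodule ℤ_[ℓ] (Fin n → ℚ_[ℓ])),
        (∀ i, T.IsLattice (L i)) ∧
          ∀ L' : (∀ (ℓ : ℕ) [Fact ℓ.Prime], Submodule ℤ_[ℓ] (Fin n → ℚ_[ℓ])), T.IsLattice L' →
            ∃ i, ProportionalOn Λ (L i) L' :=
  ⟨finiteness hn w S Λ (InClass S w Λ) (fun _ hT => hT.toGoodSystem)
    (fun _ hT => irr_of_unrelated (unrelated_of_inClass hT)),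
    fun _ hT => lattices hn (irr_of_unrelated (unrelated_of_inClass hT))⟩

end Pool.Agent.Results.MP_78e9a5_nt.UnpolarizedGeneric
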